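import Mathlib

namespace Pool.Agent.Lib.MP_a24e3f_co

open Polynomial

/-- a nonconstant integer polynomial has arbitrarily large prime divisors -/
theorem exists_prime_dvd_eval (g : ℤ[X]) (hg : 0 < g.natDegree) (M : ℕ) :
    ∃ p : ℕ, p.Prime ∧ M < p ∧ ∃ s : ℤ, (p : ℤ) ∣ g.eval s := by
  by_cases h0 : g.eval 0 = 0
  · obtain ⟨p, hp, hpp⟩ := Nat.exists_infinite_primes (M + 1)
    exact ⟨p, hpp, hp, 0, by rw [h0]; exact dvd_zero _⟩
  · set a := g.eval 0 with ha
    have hne : ∀ c : ℤ, g + C c ≠ 0 := by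
      intro c h
      have h1 : g = C (-c) := by rw [C_neg]; exact eq_neg_of_add_eq_zero_left h
      rw [h1, natDegree_C] at hg
      exact lt_irrefl _ hg
    have hh : (g + C (-a)) * (g + C a) ≠ 0 := mul_ne_zero (hne _) (hne _)
    have hinj : Function.Injective (fun k : ℕ => a * (M.factorial : ℤ) * k) := by
      intro k l hkl
      have hM : (M.factorial : ℤ) ≠ 0 := by exact_mod_cast M.factorial_ne_zero
      have := mul_left_cancel₀ (mul_ne_zero h0 hM) hkl
      exact_mod_cast this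
    obtain ⟨x, ⟨k, rfl⟩, hx⟩ :=
      (Set.infinite_range_of_injective hinj).exists_notMem_finset
        ((g + C (-a)) * (g + C a)).roots.toFinset
    rw [Multiset.mem_toFinset, mem_roots hh, IsRoot.def, eval_mul, eval_add, eval_add, eval_C,
      eval_C] at hx
    obtain ⟨c, hc⟩ := sub_dvd_eval_sub (a * (M.factorial : ℤ) * k) 0 g
    rw [sub_zero, ← ha] at hc
    have hg2 : g.eval (a * (M.factorial : ℤ) * k) = a * (1 + M.factorial * k * c) := by
      linarith
    have h1 : g.eval (a * (M.factorial : ℤ) * k) ≠ a := by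
      intro h; apply hx; simp only [h]; ring
    have h2 : g.eval (a * (M.factorial : ℤ) * k) ≠ -a := by
      intro h; apply hx; simp only [h]; ring
    by_cases hm0 : (1 + M.factorial * k * c : ℤ) = 0
    · obtain ⟨p, hp, hpp⟩ := Nat.exists_infinite_primes (M + 1)
      refine ⟨p, hpp, hp, a * (M.factorial : ℤ) * k, ?_⟩
      rw [hg2, hm0, mul_zero]
      exact dvd_zero _
    · have hm1 : (1 + M.factorial * k * c : ℤ).natAbs ≠ 1 := by
        intro h
        rcases Int.natAbs_eq_iff.mp h with h | h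
        · apply h1; rw [hg2, h]; simp
        · apply h2; rw [hg2, h]; simp
      obtain ⟨p, hp, hpd⟩ := Nat.exists_prime_and_dvd hm1
      have hpd' : (p : ℤ) ∣ (1 + M.factorial * k * c : ℤ) := Int.natCast_dvd.mpr hpd
      refine ⟨p, hp, ?_, a * (M.factorial : ℤ) * k, ?_⟩
      · by_contra hle
        push Not at hle
        have h3 : (p : ℤ) ∣ (M.factorial : ℤ) := by
          exact_mod_cast (hp.dvd_factorial).mpr hle
        have h4 : (p : ℤ) ∣ 1 := by
          have h5 : (p : ℤ) ∣ M.factorial * k * c := by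
            rw [mul_assoc]; exact h3.mul_right _
          have := dvd_sub hpd' h5
          simpa using this
        have h6 := Int.natCast_dvd_natCast.mp (by simpa using h4 : (p : ℤ) ∣ ((1 : ℕ) : ℤ))
        exact hp.one_lt.ne' (Nat.dvd_one.mp h6)
      · rw [hg2]
        exact hpd'.mul_left _

/-- squarefree part of a rational polynomial -/
theorem exists_sq_mul_squarefree : ∀ (n : ℕ) (F : ℚ[X]), F.natDegree ≤ n → F ≠ 0 →
    ∃ G H : ℚ[X], F = G * H ^ 2 ∧ Squarefree G := by
  intro n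
  induction n using Nat.strong_induction_on with
  | _ n ih =>
    intro F hn hF
    by_cases hsq : Squarefree F
    · exact ⟨F, 1, by ring, hsq⟩
    · unfold Squarefree at hsq
      push Not at hsq
      obtain ⟨x, ⟨y, hy⟩, hx⟩ := hsq
      have hx0 : x ≠ 0 := by rintro rfl; apply hF; rw [hy]; ring
      have hy0 : y ≠ 0 := by rintro rfl; apply hF; rw [hy]; ring
      have hdx : 0 < x.natDegree := by
        rw [Nat.pos_iff_ne_zero]
        intro h0
        apply hx
        rw [Polynomial.natDegree_eq_zero] at h0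
        obtain ⟨c, rfl⟩ := h0
        rw [Polynomial.isUnit_C]
        rw [isUnit_iff_ne_zero]
        rintro rfl
        exact hx0 C_0
      have hd : F.natDegree = x.natDegree + x.natDegree + y.natDegree := by
        rw [hy, natDegree_mul (mul_ne_zero hx0 hx0) hy0, natDegree_mul hx0 hx0]
      obtain ⟨G, H, h1, h2⟩ := ih y.natDegree (by omega) y le_rfl hy0
      exact ⟨G, x * H, by rw [hy, h1]; ring, h2⟩

/-- clearing denominators -/
theorem exists_int_multiple (G : ℚ[X]) :
    ∃ D : ℤ, D ≠ 0 ∧ ∃ g : ℤ[X], g.map (Int.castRingHom ℚ) = C (D : ℚ) * G := by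
  obtain ⟨b, hb0, hb⟩ := IsLocalization.integerNormalization_spec (nonZeroDivisors ℤ) G
  refine ⟨b, nonZeroDivisors.ne_zero hb0,
    IsLocalization.integerNormalization (nonZeroDivisors ℤ) G, ?_⟩
  have h1 : (Int.castRingHom ℚ) = algebraMap ℤ ℚ := rfl
  rw [h1, hb]
  ext k
  simp

/-- On some residue class modulo the square of an arbitrarily large prime, a rational polynomial
with a simple complex root takes no nonzero square value. -/
theorem local_nonsquare (F : ℚ[X]) (s0 : ℂ) (h0 : aeval s0 F = 0)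
    (h1 : aeval s0 (derivative F) ≠ 0) (M : ℕ) :
    ∃ p : ℕ, p.Prime ∧ M < p ∧ ∃ r : ℤ, ∀ s : ℤ, s ≡ r [ZMOD (p : ℤ) ^ 2] →
      F.eval (s : ℚ) ≠ 0 → ¬ IsSquare (F.eval (s : ℚ)) := by
  have hF : F ≠ 0 := by
    rintro rfl
    simp at h1
  obtain ⟨G, H, hGH, hG⟩ := exists_sq_mul_squarefree _ F le_rfl hF
  have hGdeg : 0 < G.natDegree := by
    rw [Nat.pos_iff_ne_zero]
    intro hd
    rw [natDegree_eq_zero] at hd
    obtain ⟨c, rfl⟩ := hd
    have hc : c ≠ 0 := by
      rintro rfl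
      apply hF
      rw [hGH]; simp
    have hc' : (algebraMap ℚ ℂ c) ≠ 0 := by
      rw [Ne, map_eq_zero]; exact hc
    have hH : aeval s0 H = 0 := by
      rw [hGH, map_mul, aeval_C, map_pow] at h0
      exact pow_eq_zero_iff (two_ne_zero) |>.mp ((mul_eq_zero.mp h0).resolve_left hc')
    apply h1
    rw [hGH, derivative_mul, derivative_C, derivative_pow]
    simp [hH]
  -- clear denominators
  obtain ⟨D, hD, g, hg⟩ := exists_int_multiple G
  have hDq : (D : ℚ) ≠ 0 := by exact_mod_cast hD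
  have hgdeg : 0 < g.natDegree := by
    have h2 : (g.map (Int.castRingHom ℚ)).natDegree = g.natDegree :=
      natDegree_map_eq_of_injective (RingHom.injective_int _) g
    rw [hg, natDegree_C_mul hDq] at h2
    omega
  have hsep : IsCoprime G (derivative G) := by
    have : G.Separable := PerfectField.separable_iff_squarefree.mpr hG
    exact this
  obtain ⟨U, V, hUV⟩ := hsep
  obtain ⟨DU, hDU, u, hu⟩ := exists_int_multiple U
  obtain ⟨DV, hDV, v, hv⟩ := exists_int_multiple V
  have hbez : C DV * (u * g) + C DU * (v * derivative g) = C (D * DU * DV) := by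
    apply Polynomial.map_injective (Int.castRingHom ℚ) (RingHom.injective_int _)
    have hC : ∀ z : ℤ, (C z : ℤ[X]).map (Int.castRingHom ℚ) = C (z : ℚ) := by
      intro z; rw [Polynomial.map_C]; rfl
    rw [Polynomial.map_add, Polynomial.map_mul, Polynomial.map_mul, Polynomial.map_mul,
      Polynomial.map_mul, hC, hC, hC, hu, hv, hg, ← Polynomial.derivative_map, hg,
      derivative_mul, derivative_C, zero_mul, zero_add]
    have h3 : (C (((D * DU * DV : ℤ)) : ℚ) : ℚ[X]) = C (D : ℚ) * C (DU : ℚ) * C (DV : ℚ) := by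
      rw [← C_mul, ← C_mul]; push_cast; rfl
    rw [h3]
    linear_combination (C (D : ℚ) * C (DU : ℚ) * C (DV : ℚ)) * hUV
  set N : ℤ := D * DU * DV with hN
  have hN0 : N ≠ 0 := mul_ne_zero (mul_ne_zero hD hDU) hDV
  obtain ⟨p, hp, hpM, s1, hs1⟩ := exists_prime_dvd_eval g hgdeg (max M N.natAbs)
  have hpN : ¬ (p : ℤ) ∣ N := by
    intro h
    have := Nat.le_of_dvd (Int.natAbs_pos.mpr hN0) (Int.natCast_dvd.mp h)
    have := le_max_right M N.natAbs
    omega
  have hpD : ¬ (p : ℤ) ∣ D := by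
    intro h
    apply hpN
    rw [hN, mul_assoc]
    exact h.mul_right _
  have hpZ : Prime (p : ℤ) := Nat.prime_iff_prime_int.mp hp
  have hder : ∀ s : ℤ, (p : ℤ) ∣ g.eval s → ¬ (p : ℤ) ∣ (derivative g).eval s := by
    intro s h h'
    apply hpN
    have h2 := congrArg (Polynomial.eval s) hbez
    simp only [eval_add, eval_mul, eval_C] at h2
    rw [← h2]
    exact dvd_add ((h.mul_left _).mul_left _) ((h'.mul_left _).mul_left _)
  have hs2 : ∃ s2 : ℤ, (p : ℤ) ∣ g.eval s2 ∧ ¬ (p : ℤ) ^ 2 ∣ g.eval s2 := by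
    by_cases h : (p : ℤ) ^ 2 ∣ g.eval s1
    · refine ⟨s1 + p, ?_, ?_⟩
      · have h2 := sub_dvd_eval_sub (s1 + p) s1 g
        rw [add_sub_cancel_left] at h2
        have := dvd_add h2 hs1
        rwa [sub_add_cancel] at this
      · intro h'
        obtain ⟨k, hk⟩ := g.binomExpansion s1 p
        rw [hk] at h'
        apply hder s1 hs1
        have h3 : (p : ℤ) ^ 2 ∣ (derivative g).eval s1 * p := by
          have h4 := dvd_sub (dvd_sub h' (Dvd.intro_left k rfl)) h
          have h5 : g.eval s1 + (derivative g).eval s1 * p + k * (p : ℤ) ^ 2 - k * (p : ℤ) ^ 2 -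
              g.eval s1 = (derivative g).eval s1 * p := by ring
          rwa [h5] at h4
        rw [sq] at h3
        exact Int.dvd_of_mul_dvd_mul_right hpZ.ne_zero h3
    · exact ⟨s1, hs1, h⟩
  obtain ⟨s2, hs2a, hs2b⟩ := hs2
  refine ⟨p, hp, lt_of_le_of_lt (le_max_left _ _) hpM, s2, ?_⟩
  intro s hs hne hsq
  have hdiff : (p : ℤ) ^ 2 ∣ g.eval s - g.eval s2 :=
    (Int.ModEq.dvd hs.symm).trans (sub_dvd_eval_sub s s2 g)
  have hsa : (p : ℤ) ∣ g.eval s := by
    have h2 := dvd_add ((dvd_pow_self (p : ℤ) two_ne_zero).trans hdiff) hs2a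
    rwa [sub_add_cancel] at h2
  have hsb : ¬ (p : ℤ) ^ 2 ∣ g.eval s := by
    intro h
    apply hs2b
    have h2 := dvd_sub h hdiff
    rwa [sub_sub_cancel] at h2
  -- G is a square at s
  have hgs : ((g.eval s : ℤ) : ℚ) = D * G.eval (s : ℚ) := by
    have h2 := congrArg (Polynomial.eval (s : ℚ)) hg
    rw [eval_mul, eval_C, eval_intCast_map] at h2
    simpa using h2
  have hFs : F.eval (s : ℚ) = G.eval (s : ℚ) * (H.eval (s : ℚ)) ^ 2 := by
    rw [hGH]; simp
  have hHs : H.eval (s : ℚ) ≠ 0 := by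
    intro h
    apply hne
    rw [hFs, h]; ring
  obtain ⟨y, hy⟩ := hsq
  have hGs : IsSquare (((g.eval s * D : ℤ)) : ℚ) := by
    refine ⟨D * (y / H.eval (s : ℚ)), ?_⟩
    push_cast
    rw [hgs]
    have h2 : G.eval (s : ℚ) = (y / H.eval (s : ℚ)) * (y / H.eval (s : ℚ)) := by
      rw [hFs] at hy
      field_simp
      linarith
    rw [h2]; ring
  rw [Rat.isSquare_intCast_iff] at hGs
  obtain ⟨m, hm⟩ := hGs
  have hpm : (p : ℤ) ∣ m := by
    have h2 : (p : ℤ) ∣ m * m := by rw [← hm]; exact hsa.mul_right _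
    rcases hpZ.dvd_or_dvd h2 with h3 | h3 <;> exact h3
  apply hsb
  have h2 : (p : ℤ) ^ 2 ∣ g.eval s * D := by
    rw [hm, ← sq]; exact pow_dvd_pow_of_dvd hpm 2
  have hcop : IsCoprime ((p : ℤ) ^ 2) D := by
    apply IsCoprime.pow_left
    exact (Prime.coprime_iff_not_dvd hpZ).mpr hpD
  exact hcop.dvd_of_dvd_mul_right h2

/-- the polynomial has a simple complex root -/
def HasSimpleRoot (F : ℚ[X]) : Prop :=
  ∃ s0 : ℂ, aeval s0 F = 0 ∧ aeval s0 (derivative F) ≠ 0

theorem family_nonsquare {κ : Type} (F : κ → ℚ[X]) (J : Finset κ)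
    (hJ : ∀ j ∈ J, HasSimpleRoot (F j)) :
    ∃ M : ℕ, 0 < M ∧ ∃ r : ℤ, ∀ s : ℤ, s ≡ r [ZMOD (M : ℤ)] → ∀ j ∈ J,
      (F j).eval (s : ℚ) ≠ 0 → ¬ IsSquare ((F j).eval (s : ℚ)) := by
  classical
  induction J using Finset.induction_on with
  | empty => exact ⟨1, one_pos, 0, by simp⟩
  | insert j J hj ih =>
    obtain ⟨M, hM, r, hr⟩ := ih (fun k hk => hJ k (Finset.mem_insert_of_mem hk))
    obtain ⟨s0, h0, h1⟩ := hJ j (Finset.mem_insert_self _ _)
    obtain ⟨p, hp, hpM, r', hr'⟩ := local_nonsquare (F j) s0 h0 h1 M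
    have hcop : IsCoprime (M : ℤ) ((p : ℤ) ^ 2) := by
      apply IsCoprime.pow_right
      rw [Nat.isCoprime_iff_coprime, Nat.coprime_comm, hp.coprime_iff_not_dvd]
      intro h
      exact absurd (Nat.le_of_dvd hM h) (not_le.mpr hpM)
    obtain ⟨u, v, huv⟩ := hcop
    refine ⟨M * p ^ 2, Nat.mul_pos hM (pow_pos hp.pos 2), r' * (u * M) + r * (v * p ^ 2), ?_⟩
    intro s hs k hk
    push_cast at hs
    have hs1 : s ≡ r [ZMOD (M : ℤ)] := by
      refine (hs.of_mul_right _).trans ?_
      rw [Int.modEq_iff_dvd]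
      refine ⟨(r - r') * u, ?_⟩
      linear_combination (-r) * huv
    have hs2 : s ≡ r' [ZMOD (p : ℤ) ^ 2] := by
      refine (hs.of_mul_left _).trans ?_
      rw [Int.modEq_iff_dvd]
      refine ⟨(r' - r) * v, ?_⟩
      linear_combination (-r') * huv
    rcases Finset.mem_insert.mp hk with rfl | hk
    · exact hr' s hs2
    · exact hr s hs1 k hk

/-- Simultaneous avoidance of squares and of zeros of a fixed nonzero polynomial. -/
theorem exists_good {κ : Type} (F : κ → ℚ[X]) (J : Finset κ)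
    (hJ : ∀ j ∈ J, HasSimpleRoot (F j)) (B : ℚ[X]) (hB : B ≠ 0) :
    ∃ s : ℚ, B.eval s ≠ 0 ∧ ∀ j ∈ J, (F j).eval s ≠ 0 → ¬ IsSquare ((F j).eval s) := by
  obtain ⟨M, hM, r, hr⟩ := family_nonsquare F J hJ
  have hinj : Function.Injective (fun k : ℕ => ((r + M * k : ℤ) : ℚ)) := by
    intro k l hkl
    have h0 : ((r + M * k : ℤ) : ℚ) = ((r + M * l : ℤ) : ℚ) := hkl
    have h1 : (r + M * k : ℤ) = r + M * l := Int.cast_injective h0
    have h2 : (M : ℤ) * k = M * l := by linarith
    have hM' : (M : ℤ) ≠ 0 := by exact_mod_cast hM.ne'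
    exact_mod_cast mul_left_cancel₀ hM' h2
  obtain ⟨x, ⟨k, rfl⟩, hx⟩ :=
    (Set.infinite_range_of_injective hinj).exists_notMem_finset B.roots.toFinset
  rw [Multiset.mem_toFinset, mem_roots hB, IsRoot.def] at hx
  refine ⟨_, hx, ?_⟩
  apply hr
  rw [Int.modEq_iff_dvd]
  exact ⟨-k, by ring⟩

end Pool.Agent.Lib.MP_a24e3f_co
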