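import Mathlib

namespace Pool.Agent.Lib.MP_a24e3f_co

open Polynomial

/-- the basic quartic -/
def Qf (b g d t : ℂ) : ℂ := (t ^ 2 * b - g) ^ 2 - 4 * d * t * (t - 1) * (t * b - g)

/-- its derivative in `t` -/
def Qd (b g d t : ℂ) : ℂ := 2 * (t ^ 2 * b - g) * (2 * t * b) -
  4 * d * ((2 * t - 1) * (t * b - g) + (t ^ 2 - t) * b)

/-- the monic quartic as a polynomial -/
noncomputable def QP (g d : ℂ) : ℂ[X] :=
  X ^ 4 + (C (-4 * d) * X ^ 3 + C (4 * d + 4 * d * g - 2 * g) * X ^ 2 + C (-4 * d * g) * X +
    C (g ^ 2))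

theorem QP_eval (g d t : ℂ) : (QP g d).eval t = Qf 1 g d t := by
  unfold QP Qf
  simp only [eval_add, eval_mul, eval_pow, eval_X, eval_C]
  ring

theorem QP_deriv (g d t : ℂ) : (derivative (QP g d)).eval t = Qd 1 g d t := by
  unfold QP Qd
  simp only [derivative_add, derivative_mul, derivative_X_pow, derivative_C, derivative_X,
    eval_add, eval_mul, eval_pow, eval_X, eval_C]
  push_cast
  simp
  ring

theorem QP_low (g d : ℂ) : (C (-4 * d) * X ^ 3 + C (4 * d + 4 * d * g - 2 * g) * X ^ 2 +
    C (-4 * d * g) * X + C (g ^ 2) : ℂ[X]).degree < (4 : ℕ) := by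
  compute_degree!

theorem QP_monic (g d : ℂ) : (QP g d).Monic := by
  unfold QP
  exact monic_X_pow_add (QP_low g d)

theorem QP_natDegree (g d : ℂ) : (QP g d).natDegree = 4 := by
  unfold QP
  rw [natDegree_add_eq_left_of_degree_lt]
  · simp
  · rw [degree_X_pow]; exact QP_low g d

/-- roots are simple -/
theorem simple_root {g d t : ℂ} (hg0 : g ≠ 0) (hg1 : g ≠ 1) (hd0 : d ≠ 0) (hd1 : d ≠ 1)
    (hdg : d ≠ g) (h : Qf 1 g d t = 0) : Qd 1 g d t ≠ 0 := by
  intro h'
  unfold Qf at h
  unfold Qd at h'
  set A := t ^ 2 * 1 - g with hA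
  set B := t * (t - 1) * (t * 1 - g) with hB
  have e1 : A ^ 2 = 4 * d * B := by rw [hB]; linear_combination h
  have hBne : B ≠ 0 := by
    intro hB0
    rw [hB0] at e1
    have hA0 : A = 0 := by
      have : A ^ 2 = 0 := by rw [e1]; ring
      exact pow_eq_zero_iff (two_ne_zero) |>.mp this
    rw [hB] at hB0
    rcases mul_eq_zero.mp hB0 with h1 | h1
    · rcases mul_eq_zero.mp h1 with h2 | h2
      · apply hg0; rw [hA, h2] at hA0; linear_combination -hA0
      · apply hg1
        have ht : t = 1 := by linear_combination h2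
        rw [hA, ht] at hA0; linear_combination -hA0
    · have ht : t = g := by linear_combination h1
      rw [hA, ht] at hA0
      have h3 : g * (g - 1) = 0 := by linear_combination hA0
      rcases mul_eq_zero.mp h3 with h4 | h4
      · exact hg0 h4
      · apply hg1; linear_combination h4
  have hAne : A ≠ 0 := by
    intro hA0
    rw [hA0] at e1
    have : 4 * d * B = 0 := by rw [← e1]; ring
    rcases mul_eq_zero.mp this with h1 | h1
    · exact hd0 (by linear_combination h1 / 4)
    · exact hBne h1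
  -- the Wronskian
  have hW : (t ^ 2 - 2 * t + g) * (t ^ 2 - 2 * g * t + g) = 0 := by
    have e2 : A * ((t ^ 2 - 2 * t + g) * (t ^ 2 - 2 * g * t + g)) = 0 := by
      have e3 : 4 * d * (2 * (2 * t) * B - A * ((2 * t - 1) * (t * 1 - g) + (t ^ 2 - t) * 1)) = 0 := by
        linear_combination (-4 * t) * e1 + A * h'
      have e4 : (2 * (2 * t) * B - A * ((2 * t - 1) * (t * 1 - g) + (t ^ 2 - t) * 1)) = 0 := by
        rcases mul_eq_zero.mp e3 with h1 | h1
        · exact absurd (by linear_combination h1 / 4) hd0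
        · exact h1
      have e5 : (t ^ 2 - 2 * t + g) * (t ^ 2 - 2 * g * t + g) = 0 := by
        rw [hA, hB] at e4
        linear_combination e4
      rw [e5]; ring
    rcases mul_eq_zero.mp e2 with h1 | h1
    · exact absurd h1 hAne
    · exact h1
  rcases mul_eq_zero.mp hW with h1 | h1
  · apply hd1
    have : (d - 1) * B = 0 := by
      have e6 : A ^ 2 = (t ^ 2 - 2 * t + g) ^ 2 + 4 * B := by rw [hA, hB]; ring
      rw [h1] at e6
      linear_combination (e6 - e1) / 4
    rcases mul_eq_zero.mp this with h2 | h2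
    · linear_combination h2
    · exact absurd h2 hBne
  · apply hdg
    have : (d - g) * B = 0 := by
      have e6 : A ^ 2 = (t ^ 2 - 2 * g * t + g) ^ 2 + 4 * g * B := by rw [hA, hB]; ring
      rw [h1] at e6
      linear_combination (e6 - e1) / 4
    rcases mul_eq_zero.mp this with h2 | h2
    · linear_combination h2
    · exact absurd h2 hBne

open ComplexConjugate

/-- key algebraic fact (normalized form): some root of the quartic is not a root of the conjugate
quartic -/
theorem exists_root_aux {g d : ℂ} (hg : conj g ≠ g) (hd0 : d ≠ 0) (hd1 : d ≠ 1) (hdg : d ≠ g) :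
    ∃ r : ℂ, Qf 1 g d r = 0 ∧ Qf 1 (conj g) (conj d) r ≠ 0 ∧ Qd 1 g d r ≠ 0 ∧ r ≠ g ∧
      r ≠ conj g := by
  have hg0 : g ≠ 0 := by rintro rfl; simp at hg
  have hg1 : g ≠ 1 := by rintro rfl; simp at hg
  have hgroot : Qf 1 g d g ≠ 0 := by
    intro h
    have h1 : (g * (g - 1)) ^ 2 = 0 := by
      unfold Qf at h
      linear_combination h
    rcases mul_eq_zero.mp (pow_eq_zero_iff (two_ne_zero) |>.mp h1) with h2 | h2
    · exact hg0 h2
    · exact hg1 (by linear_combination h2)
  by_contra hcon
  push Not at hcon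
  have hroots : ∀ r, Qf 1 g d r = 0 → r ≠ conj g → Qf 1 (conj g) (conj d) r = 0 := by
    intro r hr hrg
    by_contra hne
    have := hcon r hr hne (simple_root hg0 hg1 hd0 hd1 hdg hr) (by
      rintro rfl; exact hgroot hr)
    exact hrg this
  have hP0 : QP g d ≠ 0 := (QP_monic g d).ne_zero
  have hnodup : (QP g d).roots.Nodup := by
    rw [Multiset.nodup_iff_count_le_one]
    intro r
    rw [count_roots]
    by_contra hlt
    push Not at hlt
    have h1 := (one_lt_rootMultiplicity_iff_isRoot hP0).mp hlt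
    rw [IsRoot.def, IsRoot.def, QP_deriv, QP_eval] at h1
    exact simple_root hg0 hg1 hd0 hd1 hdg h1.1 h1.2
  set S : ℂ[X] := (X - C (conj g)) * QP (conj g) (conj d) with hS
  have hSm : S.Monic := (monic_X_sub_C _).mul (QP_monic _ _)
  have hdvd : QP g d ∣ S := by
    apply Splits.dvd_of_roots_le_roots (IsAlgClosed.splits _) hP0
    rw [Multiset.le_iff_subset hnodup]
    intro r hr
    rw [mem_roots hP0, IsRoot.def, QP_eval] at hr
    rw [mem_roots hSm.ne_zero, IsRoot.def, hS, eval_mul, QP_eval, eval_sub, eval_X, eval_C]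
    by_cases h : r = conj g
    · rw [h, sub_self, zero_mul]
    · rw [hroots r hr h, mul_zero]
  obtain ⟨R, hR⟩ := hdvd
  have hRm : R.Monic := (QP_monic g d).of_mul_monic_left (by rw [← hR]; exact hSm)
  have hRd : R.natDegree = 1 := by
    have h1 : S.natDegree = 5 := by
      rw [hS, (monic_X_sub_C _).natDegree_mul (QP_monic _ _), natDegree_X_sub_C, QP_natDegree]
    rw [hR, (QP_monic g d).natDegree_mul hRm, QP_natDegree] at h1
    omega
  have hRx : R = X + C (R.coeff 0) := hRm.eq_X_add_C hRd
  set m := R.coeff 0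
  have heq : ∀ t : ℂ, (t - conj g) * Qf 1 (conj g) (conj d) t = Qf 1 g d t * (t + m) := by
    intro t
    have h1 := congrArg (Polynomial.eval t) hR
    rw [hS, hRx, eval_mul, eval_mul, QP_eval, QP_eval, eval_sub, eval_X, eval_C, eval_add,
      eval_X, eval_C] at h1
    exact h1
  set G := conj g with hG
  set D := conj d with hD
  unfold Qf at heq
  have a0 := heq 0
  have a1 := heq 1
  have a2 := heq (-1)
  have a3 := heq 2
  have a4 := heq (-2)
  have c0 : -G ^ 3 = m * g ^ 2 := by linear_combination a0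
  have c4 : -4 * D - G = -4 * d + m := by
    linear_combination (a3 + a4 - 4 * a1 - 4 * a2 + 6 * a0) / 24
  have c2 : -4 * D * G - G * (4 * D + 4 * D * G - 2 * G) =
      -4 * d * g + m * (4 * d + 4 * d * g - 2 * g) := by
    linear_combination (16 * a1 + 16 * a2 - a3 - a4 - 30 * a0) / 24
  have c3 : (4 * D + 4 * D * G - 2 * G) + 4 * D * G = (4 * d + 4 * d * g - 2 * g) - 4 * d * m := by
    linear_combination (a3 - a4 - 2 * a1 + 2 * a2) / 12
  have c1 : G ^ 2 + 4 * D * G ^ 2 = g ^ 2 - 4 * d * g * m := by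
    linear_combination (8 * a1 - 8 * a2 - a3 + a4) / 12
  have hG0 : G ≠ 0 := by
    rw [hG]; exact (_root_.map_ne_zero _).mpr hg0
  have key := heq G
  have key2 : Qf 1 g d G * (G + m) = 0 := by
    unfold Qf
    rw [← key]; ring
  rcases mul_eq_zero.mp key2 with hcase | hcase
  · -- second case
    have h1 : Qf 1 G D g = 0 := by
      have h2 := congrArg conj hcase
      unfold Qf at h2 ⊢
      simp only [map_sub, map_mul, map_pow, map_one, map_zero, map_ofNat] at h2
      rw [hG, Complex.conj_conj, ← hG, ← hD] at h2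
      exact h2
    have h2 := heq g
    have h3 : Qf 1 g d g * (g + m) = 0 := by
      unfold Qf at h1 ⊢
      rw [← h2, h1, mul_zero]
    have hm : m = -g := by
      rcases mul_eq_zero.mp h3 with h4 | h4
      · exact absurd h4 hgroot
      · linear_combination h4
    rw [hm] at c4 c3 c2
    have i4 := (Complex.ext_iff.mp c4).2
    have i3 := (Complex.ext_iff.mp c3).2
    have i2 := (Complex.ext_iff.mp c2).2
    have hy : g.im ≠ 0 := by
      intro h; apply hg; rw [hG]; exact Complex.conj_eq_iff_im.mpr h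
    simp only [hG, hD, Complex.add_im, Complex.sub_im, Complex.mul_im, Complex.neg_im,
      Complex.neg_re, Complex.conj_im, Complex.conj_re, Complex.mul_re, Complex.add_re,
      Complex.sub_re, Complex.re_ofNat, Complex.im_ofNat] at i4 i3 i2
    have f1 : d.im = -g.im / 4 := by linarith
    rw [f1] at i3 i2
    have e1 : g.im * (8 * d.re - 2 * g.re - 3) = 0 := by linear_combination (-1/2) * i3
    have e2 : 8 * d.re - 2 * g.re - 3 = 0 := (mul_eq_zero.mp e1).resolve_left hy
    have e3 : d.re = (2 * g.re + 3) / 8 := by linarith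
    rw [e3] at i2
    have e4 : g.im * (g.re ^ 2 - g.re + 3 + g.im ^ 2) = 0 := by linear_combination (1/2) * i2
    rcases mul_eq_zero.mp e4 with h5 | h5
    · exact hy h5
    · nlinarith [sq_nonneg (g.re - 1 / 2), sq_nonneg g.im]
  · have hm : m = -G := by linear_combination hcase
    rw [hm] at c4 c1 c0
    have hdD : D = d := by linear_combination -c4 / 4
    have h1 : (G - g) * (G + g) = 0 := by
      have h2 : G * ((G - g) * (G + g)) = 0 := by linear_combination -c0
      exact (mul_eq_zero.mp h2).resolve_left hG0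
    have h2 : G + g = 0 := (mul_eq_zero.mp h1).resolve_left (sub_ne_zero.mpr hg)
    rw [hdD] at c1
    have h3 : d * (G * (G - g)) = 0 := by
      linear_combination c1 / 4 - h1 / 4
    rcases mul_eq_zero.mp h3 with h4 | h4
    · exact hd0 h4
    · rcases mul_eq_zero.mp h4 with h5 | h5
      · exact hG0 h5
      · exact hg (sub_eq_zero.mp h5)

/-- key algebraic fact: some root of the quartic is not a root of the conjugate quartic -/
theorem exists_root {b g d : ℂ} (hbg : conj b * g ≠ b * conj g) (hd0 : d ≠ 0) (hdb : d ≠ b)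
    (hdg : d ≠ g) : ∃ r : ℂ, Qf b g d r = 0 ∧ Qf (conj b) (conj g) (conj d) r ≠ 0 ∧
      Qd b g d r ≠ 0 ∧ r * b ≠ g ∧ r * conj b ≠ conj g := by
  have hb : b ≠ 0 := by rintro rfl; simp at hbg
  have hB : conj b ≠ 0 := (_root_.map_ne_zero _).mpr hb
  obtain ⟨r, h1, h2, h3, h4, h5⟩ := exists_root_aux (g := g / b) (d := d / b)
    (by
      intro h
      apply hbg
      rw [map_div₀, div_eq_div_iff hB hb] at h
      linear_combination -h)
    (div_ne_zero hd0 hb) (by intro h; rw [div_eq_one_iff_eq hb] at h; exact hdb h)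
    (by intro h; rw [div_left_inj' hb] at h; exact hdg h)
  refine ⟨r, ?_, ?_, ?_, ?_, ?_⟩
  · have e : Qf b g d r = b ^ 2 * Qf 1 (g / b) (d / b) r := by
      unfold Qf; field_simp
    rw [e, h1, mul_zero]
  · have e : Qf (conj b) (conj g) (conj d) r =
        (conj b) ^ 2 * Qf 1 (conj (g / b)) (conj (d / b)) r := by
      unfold Qf; rw [map_div₀, map_div₀]; field_simp
    rw [e]
    exact mul_ne_zero (pow_ne_zero 2 hB) h2
  · have e : Qd b g d r = b ^ 2 * Qd 1 (g / b) (d / b) r := by
      unfold Qd; field_simp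
    rw [e]
    exact mul_ne_zero (pow_ne_zero 2 hb) h3
  · intro h
    apply h4
    rw [← h]; field_simp
  · intro h
    apply h5
    rw [map_div₀, ← h]; field_simp

end Pool.Agent.Lib.MP_a24e3f_co
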