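import Mathlib
import Pool.Agent.Lib.MP_a24e3f_co.Prime
import Pool.Agent.Lib.MP_a24e3f_co.Root

namespace Pool.Agent.Lib.MP_a24e3f_co

open Polynomial ComplexConjugate

/-- pairs `(x, y)` of rationals; they stand for the point `(x, y √D)` of the plane -/
abbrev Pt : Type := ℚ × ℚ

/-- the purely imaginary number `i √D` -/
noncomputable def om (D : ℚ) : ℂ := ((Real.sqrt (D : ℝ) : ℝ) : ℂ) * Complex.I

theorem om_sq {D : ℚ} (hD : 0 < D) : om D ^ 2 = -(D : ℂ) := by
  unfold om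
  rw [mul_pow, Complex.I_sq, ← Complex.ofReal_pow, Real.sq_sqrt (by exact_mod_cast hD.le)]
  simp

theorem om_ne {D : ℚ} (hD : 0 < D) : om D ≠ 0 := by
  intro h
  have h1 := om_sq hD
  rw [h] at h1
  have h2 : (D : ℂ) = 0 := by linear_combination h1
  exact hD.ne' (by exact_mod_cast h2)

theorem conj_om (D : ℚ) : conj (om D) = -om D := by
  unfold om
  rw [map_mul, Complex.conj_I, Complex.conj_ofReal]
  ring

theorem conj_rat (q : ℚ) : conj ((q : ℂ)) = (q : ℂ) := by
  rw [← Complex.ofReal_ratCast, Complex.conj_ofReal]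

/-- the complex number of a rational point -/
noncomputable def toC (D : ℚ) (p : Pt) : ℂ := (p.1 : ℂ) + (p.2 : ℂ) * om D

theorem conj_toC (D : ℚ) (p : Pt) : conj (toC D p) = (p.1 : ℂ) - (p.2 : ℂ) * om D := by
  unfold toC
  simp only [map_add, map_mul, conj_om, conj_rat]
  ring

theorem toC_sub (D : ℚ) (p q : Pt) : toC D (p - q) = toC D p - toC D q := by
  unfold toC
  simp only [Prod.fst_sub, Prod.snd_sub]
  push_cast
  ring

/-- the polynomial `Im (κ ^ 2 * conj g)` with `κ = 1 + s ω` -/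
noncomputable def dir (D : ℚ) (g : Pt) : ℚ[X] := C (D * g.2) * X ^ 2 + C (2 * g.1) * X - C g.2

/-- the area form -/
def cA (b g : Pt) : ℚ := g.2 * b.1 - g.1 * b.2

/-- real part of `n^2 b - l^2 g` -/
noncomputable def A1 (D : ℚ) (b g : Pt) : ℚ[X] := dir D g ^ 2 * C b.1 - dir D b ^ 2 * C g.1
/-- imaginary part -/
noncomputable def A2 (D : ℚ) (b g : Pt) : ℚ[X] := dir D g ^ 2 * C b.2 - dir D b ^ 2 * C g.2
/-- the real denominator, up to `1 + D s^2` -/
noncomputable def bP (D : ℚ) (b g : Pt) : ℚ[X] :=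
  C (4 * cA b g) * dir D b * dir D g * (dir D g - dir D b)
/-- real part of the numerator -/
noncomputable def q1 (D : ℚ) (b g d : Pt) : ℚ[X] :=
  A1 D b g ^ 2 - C D * A2 D b g ^ 2 +
    bP D b g * (C d.1 * (1 - C D * X ^ 2) - C (D * d.2) * (2 * X))
/-- imaginary part of the numerator -/
noncomputable def q2 (D : ℚ) (b g d : Pt) : ℚ[X] :=
  2 * A1 D b g * A2 D b g + bP D b g * (C d.2 * (1 - C D * X ^ 2) + C d.1 * (2 * X))
/-- the norm of the numerator -/
noncomputable def FP (D : ℚ) (b g d : Pt) : ℚ[X] := q1 D b g d ^ 2 + C D * q2 D b g d ^ 2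

theorem dir_C (D : ℚ) (g : Pt) : (dir D g).map (algebraMap ℚ ℂ) =
    C ((D : ℂ) * (g.2 : ℂ)) * X ^ 2 + C (2 * (g.1 : ℂ)) * X - C (g.2 : ℂ) := by
  unfold dir
  simp only [Polynomial.map_sub, Polynomial.map_add, Polynomial.map_mul, Polynomial.map_pow,
    map_C, map_X, eq_ratCast]
  push_cast
  rfl

/-- complex numerator -/
noncomputable def qC (D : ℚ) (b g d : Pt) : ℂ[X] :=
  ((dir D g).map (algebraMap ℚ ℂ) ^ 2 * C (toC D b) -
    (dir D b).map (algebraMap ℚ ℂ) ^ 2 * C (toC D g)) ^ 2 +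
  C (4 * (cA b g : ℂ) * toC D d) * (dir D b).map (algebraMap ℚ ℂ) *
    (dir D g).map (algebraMap ℚ ℂ) *
    ((dir D g).map (algebraMap ℚ ℂ) - (dir D b).map (algebraMap ℚ ℂ)) * (1 + C (om D) * X) ^ 2

/-- complex conjugate numerator -/
noncomputable def qCs (D : ℚ) (b g d : Pt) : ℂ[X] :=
  ((dir D g).map (algebraMap ℚ ℂ) ^ 2 * C (conj (toC D b)) -
    (dir D b).map (algebraMap ℚ ℂ) ^ 2 * C (conj (toC D g))) ^ 2 +
  C (4 * (cA b g : ℂ) * conj (toC D d)) * (dir D b).map (algebraMap ℚ ℂ) *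
    (dir D g).map (algebraMap ℚ ℂ) *
    ((dir D g).map (algebraMap ℚ ℂ) - (dir D b).map (algebraMap ℚ ℂ)) *
    (1 - C (om D) * X) ^ 2

theorem Com_sq {D : ℚ} (hD : 0 < D) : (C (om D) : ℂ[X]) ^ 2 = -C (D : ℂ) := by
  rw [← C_pow, om_sq hD, C_neg]

theorem q_split {D : ℚ} (hD : 0 < D) (b g d : Pt) : (q1 D b g d).map (algebraMap ℚ ℂ) +
    C (om D) * (q2 D b g d).map (algebraMap ℚ ℂ) = qC D b g d := by
  unfold q1 q2 qC A1 A2 bP toC
  simp only [Polynomial.map_sub, Polynomial.map_add, Polynomial.map_mul, Polynomial.map_pow,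
    map_C, map_X, Polynomial.map_one, Polynomial.map_ofNat, eq_ratCast, C_add, C_mul,
    Rat.cast_ofNat]
  have h := Com_sq hD
  generalize (dir D g).map (algebraMap ℚ ℂ) = n
  generalize (dir D b).map (algebraMap ℚ ℂ) = l
  linear_combination (-((n ^ 2 * C (b.2 : ℂ) - l ^ 2 * C (g.2 : ℂ)) ^ 2 +
    C 4 * C (cA b g : ℂ) * l * n * (n - l) * (C (d.1 : ℂ) * X ^ 2 + 2 * C (d.2 : ℂ) * X +
      C (om D) * C (d.2 : ℂ) * X ^ 2))) * h

theorem qs_split {D : ℚ} (hD : 0 < D) (b g d : Pt) : (q1 D b g d).map (algebraMap ℚ ℂ) -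
    C (om D) * (q2 D b g d).map (algebraMap ℚ ℂ) = qCs D b g d := by
  unfold q1 q2 qCs A1 A2 bP
  rw [conj_toC, conj_toC, conj_toC]
  simp only [Polynomial.map_sub, Polynomial.map_add, Polynomial.map_mul, Polynomial.map_pow,
    map_C, map_X, Polynomial.map_one, Polynomial.map_ofNat, eq_ratCast, C_mul, C_sub,
    Rat.cast_ofNat]
  have h := Com_sq hD
  generalize (dir D g).map (algebraMap ℚ ℂ) = n
  generalize (dir D b).map (algebraMap ℚ ℂ) = l
  linear_combination (-((n ^ 2 * C (b.2 : ℂ) - l ^ 2 * C (g.2 : ℂ)) ^ 2 +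
    C 4 * C (cA b g : ℂ) * l * n * (n - l) * (C (d.1 : ℂ) * X ^ 2 + 2 * C (d.2 : ℂ) * X -
      C (om D) * C (d.2 : ℂ) * X ^ 2))) * h

theorem FP_map {D : ℚ} (hD : 0 < D) (b g d : Pt) :
    (FP D b g d).map (algebraMap ℚ ℂ) = qC D b g d * qCs D b g d := by
  rw [← q_split hD, ← qs_split hD]
  unfold FP
  simp only [Polynomial.map_add, Polynomial.map_pow, Polynomial.map_mul, map_C, eq_ratCast]
  have h := Com_sq hD
  linear_combination (((q2 D b g d).map (algebraMap ℚ ℂ)) ^ 2) * h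

theorem dir_eval (D : ℚ) (g : Pt) (s : ℂ) : ((dir D g).map (algebraMap ℚ ℂ)).eval s =
    (D : ℂ) * (g.2 : ℂ) * s ^ 2 + 2 * (g.1 : ℂ) * s - (g.2 : ℂ) := by
  rw [dir_C]
  simp only [eval_add, eval_sub, eval_mul, eval_pow, eval_X, eval_C]

theorem dir_deriv (D : ℚ) (g : Pt) (s : ℂ) :
    (derivative ((dir D g).map (algebraMap ℚ ℂ))).eval s =
    2 * (D : ℂ) * (g.2 : ℂ) * s + 2 * (g.1 : ℂ) := by
  rw [dir_C]
  simp
  ring

theorem toC_injective {D : ℚ} (hD : 0 < D) : Function.Injective (toC D) := by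
  intro p q h
  have h1 := congrArg conj h
  rw [conj_toC, conj_toC] at h1
  unfold toC at h
  have e1 : (p.1 : ℂ) = q.1 := by linear_combination (h + h1) / 2
  have e2 : ((p.2 : ℂ) - q.2) * om D = 0 := by linear_combination (h - h1) / 2
  have e3 : (p.2 : ℂ) = q.2 := by
    rcases mul_eq_zero.mp e2 with h2 | h2
    · linear_combination h2
    · exact absurd h2 (om_ne hD)
  exact Prod.ext (by exact_mod_cast e1) (by exact_mod_cast e3)

theorem toC_ne {D : ℚ} (hD : 0 < D) {p q : Pt} (h : p ≠ q) : toC D p ≠ toC D q :=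
  fun h' => h (toC_injective hD h')

theorem toC_zero (D : ℚ) : toC D 0 = 0 := by unfold toC; simp

theorem area_toC (D : ℚ) (b g : Pt) : conj (toC D b) * toC D g - toC D b * conj (toC D g) =
    2 * (cA b g : ℂ) * om D := by
  rw [conj_toC, conj_toC]
  unfold toC cA
  push_cast
  ring

theorem FP_simpleRoot {D : ℚ} (hD : 0 < D) (b g d : Pt) (hA : cA b g ≠ 0) (hd0 : d ≠ 0)
    (hdb : d ≠ b) (hdg : d ≠ g) : HasSimpleRoot (FP D b g d) := by
  have hA' : (cA b g : ℂ) ≠ 0 := by exact_mod_cast hA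
  have hI := om_sq hD
  have hD' : (D : ℂ) ≠ 0 := by exact_mod_cast hD.ne'
  obtain ⟨r, hr1, hr2, hr3, hr4, hr5⟩ := exists_root (b := toC D b) (g := toC D g) (d := toC D d)
    (by
      intro h
      have h1 := area_toC D b g
      rw [h, sub_self] at h1
      have h2 : (2 * (cA b g : ℂ)) * om D ≠ 0 :=
        mul_ne_zero (mul_ne_zero two_ne_zero hA') (om_ne hD)
      exact h2 h1.symm)
    (by rw [← toC_zero D]; exact toC_ne hD hd0) (toC_ne hD hdb) (toC_ne hD hdg)
  -- the parameter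
  obtain ⟨s, hs⟩ : ∃ s : ℂ, ((D : ℂ) * (g.2 : ℂ) * s ^ 2 + 2 * (g.1 : ℂ) * s - (g.2 : ℂ)) =
      r * ((D : ℂ) * (b.2 : ℂ) * s ^ 2 + 2 * (b.1 : ℂ) * s - (b.2 : ℂ)) := by
    by_cases hu : (g.2 : ℂ) - r * b.2 = 0
    · refine ⟨0, ?_⟩
      linear_combination -hu
    · obtain ⟨ρ, hρ⟩ := IsAlgClosed.exists_pow_nat_eq
        (((g.1 : ℂ) - r * b.1) ^ 2 + (D : ℂ) * ((g.2 : ℂ) - r * b.2) ^ 2) (n := 2) two_pos
      refine ⟨(-((g.1 : ℂ) - r * b.1) + ρ) / ((D : ℂ) * ((g.2 : ℂ) - r * b.2)), ?_⟩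
      field_simp
      linear_combination (((g.2 : ℂ) - r * b.2)) * hρ
  set n : ℂ := (D : ℂ) * (g.2 : ℂ) * s ^ 2 + 2 * (g.1 : ℂ) * s - (g.2 : ℂ) with hn
  set l : ℂ := (D : ℂ) * (b.2 : ℂ) * s ^ 2 + 2 * (b.1 : ℂ) * s - (b.2 : ℂ) with hl
  set K : ℂ := 1 + om D * s with hK
  set K' : ℂ := 1 - om D * s with hK'
  have id1 : n * toC D b - l * toC D g = -(cA b g : ℂ) * K ^ 2 := by
    rw [hn, hl, hK]
    unfold toC cA
    push_cast
    linear_combination (((g.2 : ℂ) * b.1 - g.1 * b.2) * s ^ 2) * hI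
  have id2 : n * conj (toC D b) - l * conj (toC D g) = -(cA b g : ℂ) * K' ^ 2 := by
    rw [conj_toC, conj_toC, hn, hl, hK']
    unfold cA
    push_cast
    linear_combination (((g.2 : ℂ) * b.1 - g.1 * b.2) * s ^ 2) * hI
  have hl0 : l ≠ 0 := by
    intro h0
    have hn0 : n = 0 := by rw [hs, h0, mul_zero]
    have h1 : (cA b g : ℂ) * s = 0 := by
      unfold cA
      push_cast
      rw [hn] at hn0
      rw [hl] at h0
      linear_combination (g.2 : ℂ) / 2 * h0 - (b.2 : ℂ) / 2 * hn0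
    have h2 : s = 0 := (mul_eq_zero.mp h1).resolve_left hA'
    apply hA'
    unfold cA
    push_cast
    rw [hn, h2] at hn0
    rw [hl, h2] at h0
    have e1 : (g.2 : ℂ) = 0 := by linear_combination -hn0
    have e2 : (b.2 : ℂ) = 0 := by linear_combination -h0
    rw [e1, e2]; ring
  have hK0 : K ≠ 0 := by
    intro h0
    rw [h0, hs] at id1
    have h1 : l * (r * toC D b - toC D g) = 0 := by linear_combination id1
    rcases mul_eq_zero.mp h1 with h2 | h2
    · exact hl0 h2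
    · exact hr4 (sub_eq_zero.mp h2)
  have hK'0 : K' ≠ 0 := by
    intro h0
    rw [h0, hs] at id2
    have h1 : l * (r * conj (toC D b) - conj (toC D g)) = 0 := by linear_combination id2
    rcases mul_eq_zero.mp h1 with h2 | h2
    · exact hl0 h2
    · exact hr5 (sub_eq_zero.mp h2)
  have evn : ((dir D g).map (algebraMap ℚ ℂ)).eval s = n := dir_eval D g s
  have evl : ((dir D b).map (algebraMap ℚ ℂ)).eval s = l := dir_eval D b s
  set n' : ℂ := 2 * (D : ℂ) * (g.2 : ℂ) * s + 2 * (g.1 : ℂ) with hn'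
  set l' : ℂ := 2 * (D : ℂ) * (b.2 : ℂ) * s + 2 * (b.1 : ℂ) with hl'
  have evn' : (derivative ((dir D g).map (algebraMap ℚ ℂ))).eval s = n' := dir_deriv D g s
  have evl' : (derivative ((dir D b).map (algebraMap ℚ ℂ))).eval s = l' := dir_deriv D b s
  have id3 : n' * toC D b - l' * toC D g = -(cA b g : ℂ) * (2 * K * om D) := by
    rw [hn', hl', hK]
    unfold toC cA
    push_cast
    linear_combination (2 * ((g.2 : ℂ) * b.1 - g.1 * b.2) * s) * hI
  have id4 : l * n' - n * l' = 2 * (cA b g : ℂ) * (K * K') := by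
    rw [hn', hl', hn, hl, hK, hK']
    unfold cA
    push_cast
    linear_combination (2 * ((g.2 : ℂ) * b.1 - g.1 * b.2) * s ^ 2) * hI
  clear_value n l n' l' K K'
  have ev1 : (qC D b g d).eval s = l ^ 4 * Qf (toC D b) (toC D g) (toC D d) r := by
    unfold qC Qf
    simp only [eval_add, eval_sub, eval_mul, eval_pow, eval_X, eval_C, eval_one, evn, evl,
      ← hK]
    rw [hs] at id1 ⊢
    linear_combination (4 * toC D d * l * (r * l) * (r * l - l)) * id1
  have ev2 : (qCs D b g d).eval s =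
      l ^ 4 * Qf (conj (toC D b)) (conj (toC D g)) (conj (toC D d)) r := by
    unfold qCs Qf
    simp only [eval_add, eval_sub, eval_mul, eval_pow, eval_X, eval_C, eval_one, evn, evl,
      ← hK']
    rw [hs] at id2 ⊢
    linear_combination (4 * conj (toC D d) * l * (r * l) * (r * l - l)) * id2
  have ev3 : (derivative (qC D b g d)).eval s =
      l ^ 3 * (n' - r * l') * Qd (toC D b) (toC D g) (toC D d) r +
        4 * l ^ 3 * l' * Qf (toC D b) (toC D g) (toC D d) r := by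
    unfold qC Qf Qd
    simp only [derivative_add, derivative_sub, derivative_mul, derivative_pow, derivative_C,
      derivative_X, derivative_one, eval_add, eval_sub, eval_mul, eval_pow, eval_X, eval_C,
      eval_one, eval_zero, evn, evl, evn', evl', ← hK]
    push_cast
    rw [hs] at id1 ⊢
    linear_combination (4 * toC D d * (l' * (r * l) * (r * l - l) + l * n' * (r * l - l) +
      l * (r * l) * (n' - l'))) * id1 + (4 * toC D d * l * (r * l) * (r * l - l)) * id3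
  refine ⟨s, ?_, ?_⟩
  · rw [aeval_def, ← eval_map, FP_map hD, eval_mul, ev1, hr1]
    ring
  · rw [aeval_def, ← eval_map, ← derivative_map, FP_map hD, derivative_mul, eval_add, eval_mul,
      eval_mul, ev1, hr1, ev2, ev3, hr1]
    simp only [mul_zero, zero_mul, add_zero]
    have h1 : n' - r * l' ≠ 0 := by
      intro h0
      have h2 : 2 * (cA b g : ℂ) * (K * K') = 0 := by
        rw [← id4, hs]
        linear_combination l * h0
      exact mul_ne_zero (mul_ne_zero two_ne_zero hA') (mul_ne_zero hK0 hK'0) h2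
    exact mul_ne_zero (mul_ne_zero (mul_ne_zero (pow_ne_zero 3 hl0) h1) hr3)
      (mul_ne_zero (pow_ne_zero 4 hl0) hr2)

end Pool.Agent.Lib.MP_a24e3f_co
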