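import Mathlib
import Pool.Agent.Lib.MP_a24e3f_co.Curve

namespace Pool.Agent.Lib.MP_a24e3f_co

open Polynomial

/-- squared length of the vector `(x, y √D)` -/
def nm (D : ℚ) (p : Pt) : ℚ := p.1 ^ 2 + D * p.2 ^ 2

theorem nm_pos {D : ℚ} (hD : 0 < D) {p : Pt} (hp : p ≠ 0) : 0 < nm D p := by
  unfold nm
  by_cases h1 : p.1 = 0
  · have h2 : p.2 ≠ 0 := fun h2 => hp (Prod.ext h1 h2)
    positivity
  · positivity

/-- orientation of three points -/
def cr (x y z : Pt) : ℚ := cA (y - x) (z - x)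

/-- general position -/
def GP (S : Finset Pt) : Prop :=
  ∀ x ∈ S, ∀ y ∈ S, ∀ z ∈ S, x ≠ y → y ≠ z → x ≠ z → cr x y z ≠ 0

section
variable (D : ℚ) (b g d : Pt) (s : ℚ)

theorem dir_ev : (dir D g).eval s = D * g.2 * s ^ 2 + 2 * g.1 * s - g.2 := by
  unfold dir
  simp only [eval_add, eval_sub, eval_mul, eval_pow, eval_X, eval_C]

theorem dir_rel1 : (dir D g).eval s * b.1 - (dir D b).eval s * g.1 =
    -cA b g * (1 - D * s ^ 2) := by
  rw [dir_ev, dir_ev]; unfold cA; ring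

theorem dir_rel2 : (dir D g).eval s * b.2 - (dir D b).eval s * g.2 = -cA b g * (2 * s) := by
  rw [dir_ev, dir_ev]; unfold cA; ring

theorem bP_ev : (bP D b g).eval s = 4 * cA b g * (dir D b).eval s * (dir D g).eval s *
    ((dir D g).eval s - (dir D b).eval s) := by
  unfold bP
  simp only [eval_sub, eval_mul, eval_C]

theorem A1_ev : (A1 D b g).eval s = (dir D g).eval s ^ 2 * b.1 - (dir D b).eval s ^ 2 * g.1 := by
  unfold A1
  simp only [eval_sub, eval_mul, eval_pow, eval_C]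

theorem A2_ev : (A2 D b g).eval s = (dir D g).eval s ^ 2 * b.2 - (dir D b).eval s ^ 2 * g.2 := by
  unfold A2
  simp only [eval_sub, eval_mul, eval_pow, eval_C]

theorem q1_ev : (q1 D b g d).eval s = (A1 D b g).eval s ^ 2 - D * (A2 D b g).eval s ^ 2 +
    (bP D b g).eval s * (d.1 * (1 - D * s ^ 2) - D * d.2 * (2 * s)) := by
  unfold q1
  simp only [eval_add, eval_sub, eval_mul, eval_pow, eval_C, eval_X, eval_one, eval_ofNat]

theorem q2_ev : (q2 D b g d).eval s = 2 * (A1 D b g).eval s * (A2 D b g).eval s +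
    (bP D b g).eval s * (d.2 * (1 - D * s ^ 2) + d.1 * (2 * s)) := by
  unfold q2
  simp only [eval_add, eval_sub, eval_mul, eval_pow, eval_C, eval_X, eval_one, eval_ofNat]

theorem FP_ev : (FP D b g d).eval s = (q1 D b g d).eval s ^ 2 + D * (q2 D b g d).eval s ^ 2 := by
  unfold FP
  simp only [eval_add, eval_mul, eval_pow, eval_C]

theorem FP_sq0 : IsSquare ((FP D b g 0).eval s) := by
  rw [FP_ev, q1_ev, q2_ev]
  refine ⟨(A1 D b g).eval s ^ 2 + D * (A2 D b g).eval s ^ 2, ?_⟩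
  simp only [Prod.fst_zero, Prod.snd_zero]
  ring

theorem FP_sq1 : IsSquare ((FP D b g b).eval s) := by
  have r1 := dir_rel1 D b g s
  have r2 := dir_rel2 D b g s
  set n := (dir D g).eval s
  set l := (dir D b).eval s
  have e1 : (q1 D b g b).eval s = (n * (n - 2 * l) * b.1 + l ^ 2 * g.1) ^ 2 -
      D * (n * (n - 2 * l) * b.2 + l ^ 2 * g.2) ^ 2 := by
    rw [q1_ev, A1_ev, A2_ev, bP_ev]
    linear_combination (4 * l * n * (n - l) * b.1) * r1 -
      (4 * l * n * (n - l) * D * b.2) * r2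
  have e2 : (q2 D b g b).eval s = 2 * (n * (n - 2 * l) * b.1 + l ^ 2 * g.1) *
      (n * (n - 2 * l) * b.2 + l ^ 2 * g.2) := by
    rw [q2_ev, A1_ev, A2_ev, bP_ev]
    linear_combination (4 * l * n * (n - l) * b.2) * r1 +
      (4 * l * n * (n - l) * b.1) * r2
  rw [FP_ev, e1, e2]
  refine ⟨(n * (n - 2 * l) * b.1 + l ^ 2 * g.1) ^ 2 +
      D * (n * (n - 2 * l) * b.2 + l ^ 2 * g.2) ^ 2, ?_⟩
  ring

theorem FP_sq2 : IsSquare ((FP D b g g).eval s) := by
  have r1 := dir_rel1 D b g s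
  have r2 := dir_rel2 D b g s
  set n := (dir D g).eval s
  set l := (dir D b).eval s
  have e1 : (q1 D b g g).eval s = (n ^ 2 * b.1 + (l ^ 2 - 2 * n * l) * g.1) ^ 2 -
      D * (n ^ 2 * b.2 + (l ^ 2 - 2 * n * l) * g.2) ^ 2 := by
    rw [q1_ev, A1_ev, A2_ev, bP_ev]
    linear_combination (4 * l * n * (n - l) * g.1) * r1 -
      (4 * l * n * (n - l) * D * g.2) * r2
  have e2 : (q2 D b g g).eval s = 2 * (n ^ 2 * b.1 + (l ^ 2 - 2 * n * l) * g.1) *
      (n ^ 2 * b.2 + (l ^ 2 - 2 * n * l) * g.2) := by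
    rw [q2_ev, A1_ev, A2_ev, bP_ev]
    linear_combination (4 * l * n * (n - l) * g.2) * r1 +
      (4 * l * n * (n - l) * g.1) * r2
  rw [FP_ev, e1, e2]
  refine ⟨(n ^ 2 * b.1 + (l ^ 2 - 2 * n * l) * g.1) ^ 2 +
      D * (n ^ 2 * b.2 + (l ^ 2 - 2 * n * l) * g.2) ^ 2, ?_⟩
  ring

/-- the new point, relative to the first base point -/
noncomputable def newW : Pt :=
  (-((q1 D b g 0).eval s * (1 - D * s ^ 2) + D * (2 * s) * (q2 D b g 0).eval s) /
      ((bP D b g).eval s * (1 + D * s ^ 2) ^ 2),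
   -((q2 D b g 0).eval s * (1 - D * s ^ 2) - (2 * s) * (q1 D b g 0).eval s) /
      ((bP D b g).eval s * (1 + D * s ^ 2) ^ 2))

theorem newW_sub (hb : (bP D b g).eval s ≠ 0) (hs : 1 + D * s ^ 2 ≠ 0) : newW D b g s - d =
  (-((q1 D b g d).eval s * (1 - D * s ^ 2) + D * (2 * s) * (q2 D b g d).eval s) /
      ((bP D b g).eval s * (1 + D * s ^ 2) ^ 2),
   -((q2 D b g d).eval s * (1 - D * s ^ 2) - (2 * s) * (q1 D b g d).eval s) /
      ((bP D b g).eval s * (1 + D * s ^ 2) ^ 2)) := by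
  unfold newW
  rw [q1_ev, q2_ev, q1_ev, q2_ev]
  ext
  · simp only [Prod.fst_sub, Prod.fst_zero, Prod.snd_zero]
    field_simp
    ring
  · simp only [Prod.snd_sub, Prod.fst_zero, Prod.snd_zero]
    field_simp
    ring

theorem nm_newW (hb : (bP D b g).eval s ≠ 0) (hs : 1 + D * s ^ 2 ≠ 0) :
    nm D (newW D b g s - d) = (FP D b g d).eval s /
      ((bP D b g).eval s * (1 + D * s ^ 2)) ^ 2 := by
  rw [newW_sub D b g d s hb hs, FP_ev]
  unfold nm
  simp only
  field_simp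
  ring

/-- the polynomial whose zeros are the parameters for which the new point is on the line through
the point `d` in the direction `w` -/
noncomputable def TP (w : Pt) : ℚ[X] :=
  (q1 D b g d * (1 - C D * X ^ 2) + C D * (2 * X) * q2 D b g d) * C w.2 -
    (q2 D b g d * (1 - C D * X ^ 2) - 2 * X * q1 D b g d) * C w.1

theorem TP_ev (w : Pt) : (TP D b g d w).eval s =
    ((q1 D b g d).eval s * (1 - D * s ^ 2) + D * (2 * s) * (q2 D b g d).eval s) * w.2 -
    ((q2 D b g d).eval s * (1 - D * s ^ 2) - 2 * s * (q1 D b g d).eval s) * w.1 := by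
  unfold TP
  simp only [eval_add, eval_sub, eval_mul, eval_pow, eval_C, eval_X, eval_one, eval_ofNat]

theorem cA_newW (w : Pt) (hb : (bP D b g).eval s ≠ 0) (hs : 1 + D * s ^ 2 ≠ 0)
    (hT : (TP D b g d w).eval s ≠ 0) : cA (newW D b g s - d) w ≠ 0 := by
  rw [newW_sub D b g d s hb hs]
  unfold cA
  simp only
  intro h
  apply hT
  rw [TP_ev]
  field_simp at h
  linear_combination -h

theorem dir_root {D : ℚ} (hD : 0 < D) (b : Pt) : ∃ s : ℂ,
    (D : ℂ) * (b.2 : ℂ) * s ^ 2 + 2 * (b.1 : ℂ) * s - (b.2 : ℂ) = 0 := by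
  have hD' : (D : ℂ) ≠ 0 := by exact_mod_cast hD.ne'
  by_cases hb : (b.2 : ℂ) = 0
  · exact ⟨0, by rw [hb]; ring⟩
  · obtain ⟨ρ, hρ⟩ := IsAlgClosed.exists_pow_nat_eq
      (((b.1 : ℂ)) ^ 2 + (D : ℂ) * (b.2 : ℂ) ^ 2) (n := 2) two_pos
    refine ⟨(-(b.1 : ℂ) + ρ) / ((D : ℂ) * (b.2 : ℂ)), ?_⟩
    field_simp
    linear_combination hρ

theorem no_common {b g : Pt} (hA : (cA b g : ℂ) ≠ 0) {D s : ℂ}
    (hn : D * (g.2 : ℂ) * s ^ 2 + 2 * (g.1 : ℂ) * s - (g.2 : ℂ) = 0)
    (hl : D * (b.2 : ℂ) * s ^ 2 + 2 * (b.1 : ℂ) * s - (b.2 : ℂ) = 0) : False := by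
  have h1 : (cA b g : ℂ) * s = 0 := by
    unfold cA
    push_cast
    linear_combination (g.2 : ℂ) / 2 * hl - (b.2 : ℂ) / 2 * hn
  have h2 : s = 0 := (mul_eq_zero.mp h1).resolve_left hA
  apply hA
  unfold cA
  push_cast
  rw [h2] at hn hl
  have e1 : (g.2 : ℂ) = 0 := by linear_combination -hn
  have e2 : (b.2 : ℂ) = 0 := by linear_combination -hl
  rw [e1, e2]; ring

theorem TP_ne (hD : 0 < D) (w : Pt) (hA : cA b g ≠ 0) (hw : w ≠ 0) : TP D b g d w ≠ 0 := by
  intro h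
  have hA' : (cA b g : ℂ) ≠ 0 := by exact_mod_cast hA
  have hb : b ≠ 0 := by rintro rfl; apply hA; unfold cA; simp
  have hg : g ≠ 0 := by rintro rfl; apply hA; unfold cA; simp
  have key : ∀ s : ℂ, aeval s (TP D b g d w) = 0 := by intro s; rw [h]; simp
  have hrel : ∀ s : ℂ, let n := (D : ℂ) * (g.2 : ℂ) * s ^ 2 + 2 * (g.1 : ℂ) * s - (g.2 : ℂ)
      let l := (D : ℂ) * (b.2 : ℂ) * s ^ 2 + 2 * (b.1 : ℂ) * s - (b.2 : ℂ)
      n * b.1 - l * g.1 = -(cA b g : ℂ) * (1 - D * s ^ 2) ∧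
      n * b.2 - l * g.2 = -(cA b g : ℂ) * (2 * s) := by
    intro s
    simp only
    unfold cA
    push_cast
    constructor <;> ring
  have e1 : (b.1 : ℂ) * w.2 - b.2 * w.1 = 0 := by
    obtain ⟨s, hs⟩ := dir_root hD b
    have k := key s
    obtain ⟨r1, r2⟩ := hrel s
    simp only [hs, zero_mul, sub_zero] at r1 r2
    have hn : (D : ℂ) * (g.2 : ℂ) * s ^ 2 + 2 * (g.1 : ℂ) * s - (g.2 : ℂ) ≠ 0 :=
      fun hn => no_common hA' hn hs
    unfold TP q1 q2 A1 A2 bP dir at k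
    simp only [map_add, map_sub, map_mul, map_pow, aeval_C, aeval_X, map_one, map_ofNat,
      eq_ratCast, hs] at k
    set n := (D : ℂ) * (g.2 : ℂ) * s ^ 2 + 2 * (g.1 : ℂ) * s - (g.2 : ℂ)
    clear_value n
    have hN : ((b.1 : ℂ) ^ 2 + D * (b.2 : ℂ) ^ 2) ≠ 0 := by
      have := (nm_pos hD hb).ne'
      unfold nm at this
      exact_mod_cast this
    have k2 : n ^ 5 * ((b.1 : ℂ) ^ 2 + D * (b.2 : ℂ) ^ 2) * ((b.1 : ℂ) * w.2 - b.2 * w.1) = 0 := by
      linear_combination (-(cA b g : ℂ)) * k +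
        n ^ 4 * (((b.1 : ℂ) ^ 2 - D * (b.2 : ℂ) ^ 2) * w.2 - 2 * b.1 * b.2 * w.1) * r1 +
        n ^ 4 * (D * (2 * b.1 * b.2) * w.2 + ((b.1 : ℂ) ^ 2 - D * (b.2 : ℂ) ^ 2) * w.1) * r2
    exact (mul_eq_zero.mp k2).resolve_left (mul_ne_zero (pow_ne_zero 5 hn) hN)
  have e2 : (g.1 : ℂ) * w.2 - g.2 * w.1 = 0 := by
    obtain ⟨s, hs⟩ := dir_root hD g
    have k := key s
    obtain ⟨r1, r2⟩ := hrel s
    simp only [hs, zero_mul, zero_sub] at r1 r2
    have hl : (D : ℂ) * (b.2 : ℂ) * s ^ 2 + 2 * (b.1 : ℂ) * s - (b.2 : ℂ) ≠ 0 :=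
      fun hl => no_common hA' hs hl
    unfold TP q1 q2 A1 A2 bP dir at k
    simp only [map_add, map_sub, map_mul, map_pow, aeval_C, aeval_X, map_one, map_ofNat,
      eq_ratCast, hs] at k
    set l := (D : ℂ) * (b.2 : ℂ) * s ^ 2 + 2 * (b.1 : ℂ) * s - (b.2 : ℂ)
    clear_value l
    have hN : ((g.1 : ℂ) ^ 2 + D * (g.2 : ℂ) ^ 2) ≠ 0 := by
      have := (nm_pos hD hg).ne'
      unfold nm at this
      exact_mod_cast this
    have k2 : l ^ 5 * ((g.1 : ℂ) ^ 2 + D * (g.2 : ℂ) ^ 2) * ((g.1 : ℂ) * w.2 - g.2 * w.1) = 0 := by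
      linear_combination (cA b g : ℂ) * k -
        l ^ 4 * (((g.1 : ℂ) ^ 2 - D * (g.2 : ℂ) ^ 2) * w.2 - 2 * g.1 * g.2 * w.1) * r1 -
        l ^ 4 * (D * (2 * g.1 * g.2) * w.2 + ((g.1 : ℂ) ^ 2 - D * (g.2 : ℂ) ^ 2) * w.1) * r2
    exact (mul_eq_zero.mp k2).resolve_left (mul_ne_zero (pow_ne_zero 5 hl) hN)
  have hAc : ((g.2 : ℂ) * b.1 - g.1 * b.2) ≠ 0 := by
    unfold cA at hA'
    push_cast at hA'
    exact hA'
  have f1 : (w.1 : ℂ) = 0 := by
    have : ((g.2 : ℂ) * b.1 - g.1 * b.2) * w.1 = 0 := by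
      linear_combination (g.1 : ℂ) * e1 - (b.1 : ℂ) * e2
    exact (mul_eq_zero.mp this).resolve_left hAc
  have f2 : (w.2 : ℂ) = 0 := by
    have : ((g.2 : ℂ) * b.1 - g.1 * b.2) * w.2 = 0 := by
      linear_combination (g.2 : ℂ) * e1 - (b.2 : ℂ) * e2
    exact (mul_eq_zero.mp this).resolve_left hAc
  exact hw (Prod.ext (by exact_mod_cast f1) (by exact_mod_cast f2))

theorem dir_ne (hg : g ≠ 0) : dir D g ≠ 0 := by
  intro h
  have h0 := dir_ev D g 0
  have h1 := dir_ev D g 1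
  rw [h] at h0 h1
  simp at h0 h1
  apply hg
  refine Prod.ext ?_ h0
  rw [h0] at h1
  simp at h1
  exact h1

theorem dir_sub : dir D g - dir D b = dir D (g - b) := by
  unfold dir
  simp only [Prod.fst_sub, Prod.snd_sub, mul_sub, C_sub, C_mul]
  ring

theorem bP_ne (hA : cA b g ≠ 0) : bP D b g ≠ 0 := by
  unfold bP
  rw [dir_sub]
  have hb : b ≠ 0 := by rintro rfl; apply hA; unfold cA; simp
  have hg : g ≠ 0 := by rintro rfl; apply hA; unfold cA; simp
  have hgb : g - b ≠ 0 := by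
    intro h
    rw [sub_eq_zero] at h
    apply hA
    rw [h]
    unfold cA
    ring
  exact mul_ne_zero (mul_ne_zero (mul_ne_zero (C_ne_zero.mpr (mul_ne_zero (by norm_num) hA))
    (dir_ne D b hb)) (dir_ne D g hg)) (dir_ne D (g - b) hgb)

end

theorem cA_anti (b g : Pt) : cA g b = -cA b g := by unfold cA; ring

theorem isSquare_of_div {x y : ℚ} (hy : y ≠ 0) (h : IsSquare (x / y ^ 2)) : IsSquare x := by
  obtain ⟨r, hr⟩ := h
  refine ⟨r * y, ?_⟩
  field_simp at hr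
  rw [hr]
  ring

/-- Extension by a point at rational distance from exactly three prescribed points. -/
theorem extend3 {D : ℚ} (hD : 0 < D) (S : Finset Pt) (hS : GP S) {a b c : Pt} (ha : a ∈ S)
    (hb : b ∈ S) (hc : c ∈ S) (hab : a ≠ b) (hbc : b ≠ c) (hac : a ≠ c) :
    ∃ z : Pt, (∀ x ∈ S, ∀ y ∈ S, x ≠ y → cr x y z ≠ 0) ∧ IsSquare (nm D (z - a)) ∧
      IsSquare (nm D (z - b)) ∧ IsSquare (nm D (z - c)) ∧
      ∀ d ∈ S, d ≠ a → d ≠ b → d ≠ c → ¬ IsSquare (nm D (z - d)) := by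
  classical
  have hA : cA (b - a) (c - a) ≠ 0 := hS a ha b hb c hc hab hbc hac
  have hB : bP D (b - a) (c - a) * ∏ p ∈ (S ×ˢ S).filter (fun p => p.1 ≠ p.2),
      TP D (b - a) (c - a) (p.1 - a) (p.2 - p.1) ≠ 0 := by
    apply mul_ne_zero (bP_ne D _ _ hA)
    rw [Finset.prod_ne_zero_iff]
    intro p hp
    rw [Finset.mem_filter] at hp
    exact TP_ne D _ _ _ hD _ hA (sub_ne_zero.mpr (Ne.symm hp.2))
  obtain ⟨s, hs1, hs2⟩ := exists_good (fun d : Pt => FP D (b - a) (c - a) (d - a))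
    (S.filter (fun d => d ≠ a ∧ d ≠ b ∧ d ≠ c)) (by
      intro d hd
      rw [Finset.mem_filter] at hd
      apply FP_simpleRoot hD _ _ _ hA (sub_ne_zero.mpr hd.2.1)
      · intro h; exact hd.2.2.1 (sub_left_inj.mp h)
      · intro h; exact hd.2.2.2 (sub_left_inj.mp h)) _ hB
  rw [eval_mul, eval_prod, mul_ne_zero_iff, Finset.prod_ne_zero_iff] at hs1
  obtain ⟨hs1, hs3⟩ := hs1
  have hs0 : 1 + D * s ^ 2 ≠ 0 := by positivity
  have hden : (bP D (b - a) (c - a)).eval s * (1 + D * s ^ 2) ≠ 0 := mul_ne_zero hs1 hs0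
  set z := a + newW D (b - a) (c - a) s with hz
  have hzd : ∀ d, z - d = newW D (b - a) (c - a) s - (d - a) := by
    intro d; rw [hz]; abel
  have hcr : ∀ x ∈ S, ∀ y ∈ S, x ≠ y → cr x y z ≠ 0 := by
    intro x hx y hy hxy
    unfold cr
    rw [cA_anti, neg_ne_zero, hzd]
    apply cA_newW D _ _ _ _ _ hs1 hs0
    exact hs3 (x, y) (by
      rw [Finset.mem_filter, Finset.mem_product]
      exact ⟨⟨hx, hy⟩, hxy⟩)
  have hnm : ∀ d, nm D (z - d) = (FP D (b - a) (c - a) (d - a)).eval s /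
      ((bP D (b - a) (c - a)).eval s * (1 + D * s ^ 2)) ^ 2 := by
    intro d
    rw [hzd]
    exact nm_newW D _ _ _ _ hs1 hs0
  refine ⟨z, hcr, ?_, ?_, ?_, ?_⟩
  · rw [hnm, sub_self]
    exact (FP_sq0 D _ _ _).div (IsSquare.sq _)
  · rw [hnm]
    exact (FP_sq1 D _ _ _).div (IsSquare.sq _)
  · rw [hnm]
    exact (FP_sq2 D _ _ _).div (IsSquare.sq _)
  · intro d hd hda hdb hdc hsq
    rw [hnm] at hsq
    have h1 := isSquare_of_div hden hsq
    have hzne : z - d ≠ 0 := by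
      intro h0
      have h2 := hcr d hd a ha hda
      apply h2
      unfold cr
      rw [h0]
      unfold cA
      simp
    have h3 : (FP D (b - a) (c - a) (d - a)).eval s ≠ 0 := by
      intro h0
      have h4 := hnm d
      rw [h0, zero_div] at h4
      exact (nm_pos hD hzne).ne' h4
    exact hs2 d (by rw [Finset.mem_filter]; exact ⟨hd, hda, hdb, hdc⟩) h3 h1

/-- Extension by a point in general position. -/
theorem extend0 (S : Finset Pt) : ∃ z : Pt, z ∉ S ∧ ∀ x ∈ S, ∀ y ∈ S, x ≠ y → cr x y z ≠ 0 := by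
  classical
  let P : Pt → Pt → ℚ[X] := fun x y =>
    C (y.1 - x.1) * (X ^ 2 - C x.2) - C (y.2 - x.2) * (X - C x.1)
  have hP : ∀ x y, x ≠ y → P x y ≠ 0 := by
    intro x y hxy h
    have ev : ∀ t : ℚ, (y.1 - x.1) * (t ^ 2 - x.2) - (y.2 - x.2) * (t - x.1) = 0 := by
      intro t
      have := congrArg (Polynomial.eval t) h
      simpa only [P, eval_sub, eval_mul, eval_C, eval_pow, eval_X, eval_zero] using this
    have h0 := ev 0
    have h1 := ev 1
    have h2 := ev (-1)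
    apply hxy
    refine Prod.ext ?_ ?_
    · linear_combination (-1 / 2) * (h1 + h2 - 2 * h0)
    · linear_combination (1 / 2) * (h1 - h2)
  have hB : (∏ x ∈ S, (X - C x.1)) * ∏ p ∈ (S ×ˢ S).filter (fun p => p.1 ≠ p.2), P p.1 p.2 ≠
      (0 : ℚ[X]) := by
    apply mul_ne_zero
    · rw [Finset.prod_ne_zero_iff]
      intro x _
      exact X_sub_C_ne_zero _
    · rw [Finset.prod_ne_zero_iff]
      intro p hp
      exact hP _ _ (Finset.mem_filter.mp hp).2
  obtain ⟨s, hs, -⟩ := exists_good (fun _ : Pt => (0 : ℚ[X])) ∅ (by simp) _ hB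
  rw [eval_mul, eval_prod, eval_prod, mul_ne_zero_iff, Finset.prod_ne_zero_iff,
    Finset.prod_ne_zero_iff] at hs
  refine ⟨(s, s ^ 2), ?_, ?_⟩
  · intro h
    have := hs.1 _ h
    simp at this
  · intro x hx y hy hxy h
    have := hs.2 (x, y) (by
      rw [Finset.mem_filter, Finset.mem_product]
      exact ⟨⟨hx, hy⟩, hxy⟩)
    apply this
    simp only [P, eval_sub, eval_mul, eval_C, eval_pow, eval_X]
    unfold cr cA at h
    simp only [Prod.fst_sub, Prod.snd_sub] at h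
    linear_combination h

theorem cr_rot (x y z : Pt) : cr y z x = cr x y z := by
  unfold cr cA
  simp only [Prod.fst_sub, Prod.snd_sub]
  ring

theorem GP_insert {S : Finset Pt} (hS : GP S) {p : Pt}
    (hp : ∀ x ∈ S, ∀ y ∈ S, x ≠ y → cr x y p ≠ 0) : GP (insert p S) := by
  intro x hx y hy z hz hxy hyz hxz
  rw [Finset.mem_insert] at hx hy hz
  rcases hx with rfl | hx
  · rcases hy with rfl | hy
    · exact absurd rfl hxy
    · rcases hz with rfl | hz
      · exact absurd rfl hxz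
      · rw [← cr_rot]; exact hp y hy z hz hyz
  · rcases hy with rfl | hy
    · rcases hz with rfl | hz
      · exact absurd rfl hyz
      · rw [← cr_rot, ← cr_rot]; exact hp z hz x hx hxz.symm
    · rcases hz with rfl | hz
      · exact hp x hx y hy hxy
      · exact hS x hx y hy z hz hxy hyz hxz

/-- Extension by a point with at most three prescribed neighbours. -/
theorem extend {D : ℚ} (hD : 0 < D) : ∀ (k : ℕ) (S : Finset Pt) (_ : GP S) (B : Finset Pt)
    (_ : B ⊆ S) (_ : B.card + k = 3), ∃ z : Pt, z ∉ S ∧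
      (∀ x ∈ S, ∀ y ∈ S, x ≠ y → cr x y z ≠ 0) ∧ ∀ d ∈ S, (IsSquare (nm D (z - d)) ↔ d ∈ B) := by
  classical
  intro k
  induction k with
  | zero =>
    intro S hS B hB hcard
    rw [add_zero, Finset.card_eq_three] at hcard
    obtain ⟨a, b, c, hab, hac, hbc, rfl⟩ := hcard
    have ha : a ∈ S := hB (by simp)
    have hb : b ∈ S := hB (by simp)
    have hc : c ∈ S := hB (by simp)
    obtain ⟨z, h1, h2, h3, h4, h5⟩ := extend3 hD S hS ha hb hc hab hbc hac
    refine ⟨z, ?_, h1, ?_⟩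
    · intro hz
      have : ∃ x ∈ S, x ≠ z := by
        by_cases haz : a = z
        · exact ⟨b, hb, fun h => hab (haz.trans h.symm)⟩
        · exact ⟨a, ha, haz⟩
      obtain ⟨x, hx, hxz⟩ := this
      apply h1 x hx z hz hxz
      unfold cr cA
      ring
    · intro d hd
      constructor
      · intro hsq
        by_contra hdB
        simp only [Finset.mem_insert, Finset.mem_singleton, not_or] at hdB
        exact h5 d hd hdB.1 hdB.2.1 hdB.2.2 hsq
      · intro hdB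
        simp only [Finset.mem_insert, Finset.mem_singleton] at hdB
        rcases hdB with rfl | rfl | rfl
        · exact h2
        · exact h3
        · exact h4
  | succ k ih =>
    intro S hS B hB hcard
    obtain ⟨p, hp, hpS⟩ := extend0 S
    have hpB : p ∉ B := fun h => hp (hB h)
    obtain ⟨z, h1, h2, h3⟩ := ih (insert p S) (GP_insert hS hpS) (insert p B)
      (Finset.insert_subset_insert p hB) (by rw [Finset.card_insert_of_notMem hpB]; omega)
    refine ⟨z, fun h => h1 (Finset.mem_insert_of_mem h), ?_, ?_⟩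
    · intro x hx y hy hxy
      exact h2 x (Finset.mem_insert_of_mem hx) y (Finset.mem_insert_of_mem hy) hxy
    · intro d hd
      rw [h3 d (Finset.mem_insert_of_mem hd), Finset.mem_insert]
      constructor
      · rintro (rfl | h)
        · exact absurd hd hp
        · exact h
      · intro h
        exact Or.inr h

end Pool.Agent.Lib.MP_a24e3f_co
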