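import Mathlib

namespace Pool.Agent.Lib.MP_a24e3f_co

/-- The Euclidean plane. -/
abbrev Plane : Type := EuclideanSpace ℝ (Fin 2)

/-- `f` represents the graph `G` as a rational graph: an injective map to the plane such that no
three of the points are on a line and two distinct vertices are adjacent if and only if their
images are at rational distance. (`G` is a rational graph if and only if such an `f` exists.) -/
structure IsRationalRep {V : Type} (G : SimpleGraph V) (f : V → Plane) : Prop where
  injective : Function.Injective f
  no_three_collinear : ∀ u v w, u ≠ v → v ≠ w → u ≠ w → ¬ Collinear ℝ {f u, f v, f w}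
  adj_iff : ∀ u v, u ≠ v → (G.Adj u v ↔ ∃ q : ℚ, dist (f u) (f v) = (q : ℝ))

end Pool.Agent.Lib.MP_a24e3f_co
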