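import Mathlib
import Pool.Agent.Lib.MP_a24e3f_co.Defs
import Pool.Agent.Lib.MP_a24e3f_co.Build

namespace Pool.Agent.Lib.MP_a24e3f_co

/-- the point of the plane of a pair of rationals -/
noncomputable def place (D : ℚ) (p : Pt) : Plane := !₂[(p.1 : ℝ), (p.2 : ℝ) * √(D : ℝ)]

theorem place_0 (D : ℚ) (p : Pt) : place D p 0 = (p.1 : ℝ) := by simp [place]
theorem place_1 (D : ℚ) (p : Pt) : place D p 1 = (p.2 : ℝ) * √(D : ℝ) := by simp [place]

theorem sqrtD_ne {D : ℚ} (hD : 0 < D) : √(D : ℝ) ≠ 0 := by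
  have : (0 : ℝ) < D := by exact_mod_cast hD
  positivity

theorem dist_place {D : ℚ} (hD : 0 < D) (p q : Pt) :
    dist (place D p) (place D q) = √((nm D (p - q) : ℚ) : ℝ) := by
  have hD' : (0 : ℝ) ≤ D := by exact_mod_cast hD.le
  rw [EuclideanSpace.dist_eq, Fin.sum_univ_two, place_0, place_0, place_1, place_1,
    Real.dist_eq, Real.dist_eq, sq_abs, sq_abs]
  congr 1
  unfold nm
  push_cast
  rw [← sub_mul, mul_pow, Real.sq_sqrt hD']
  simp only [Prod.fst_sub, Prod.snd_sub]
  push_cast
  ring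

theorem rat_dist_iff {D : ℚ} (hD : 0 < D) (p q : Pt) :
    (∃ r : ℚ, dist (place D p) (place D q) = (r : ℝ)) ↔ IsSquare (nm D (p - q)) := by
  rw [dist_place hD]
  have hnn : 0 ≤ nm D (p - q) := by unfold nm; positivity
  constructor
  · rintro ⟨r, hr⟩
    refine ⟨r, ?_⟩
    have h1 : (0 : ℝ) ≤ ((nm D (p - q) : ℚ) : ℝ) := by exact_mod_cast hnn
    have h2 := Real.sq_sqrt h1
    rw [hr] at h2
    have h3 : ((r * r : ℚ) : ℝ) = ((nm D (p - q) : ℚ) : ℝ) := by push_cast; linarith [h2]
    exact_mod_cast h3.symm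
  · rintro ⟨r, hr⟩
    refine ⟨|r|, ?_⟩
    rw [hr]
    push_cast
    rw [Real.sqrt_mul_self_eq_abs]

theorem place_injective {D : ℚ} (hD : 0 < D) : Function.Injective (place D) := by
  intro p q h
  have h0 := congrArg (fun x : Plane => x 0) h
  have h1 := congrArg (fun x : Plane => x 1) h
  simp only [place_0, place_1] at h0 h1
  have h2 := mul_right_cancel₀ (sqrtD_ne hD) h1
  exact Prod.ext (by exact_mod_cast h0) (by exact_mod_cast h2)

theorem collinear_place_iff {D : ℚ} (hD : 0 < D) {p q r : Pt} (hpq : p ≠ q) :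
    Collinear ℝ {place D p, place D q, place D r} ↔ cr p q r = 0 := by
  have hs := sqrtD_ne hD
  rw [collinear_iff_of_mem (p₀ := place D p) (by simp)]
  constructor
  · rintro ⟨v, hv⟩
    obtain ⟨a, ha⟩ := hv (place D q) (by simp)
    obtain ⟨b, hb⟩ := hv (place D r) (by simp)
    have a0 := congrArg (fun x : Plane => x 0) ha
    have a1 := congrArg (fun x : Plane => x 1) ha
    have b0 := congrArg (fun x : Plane => x 0) hb
    have b1 := congrArg (fun x : Plane => x 1) hb
    simp only [vadd_eq_add, PiLp.add_apply, PiLp.smul_apply, smul_eq_mul, place_0, place_1]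
      at a0 a1 b0 b1
    have h : ((cr p q r : ℚ) : ℝ) * √(D : ℝ) = 0 := by
      unfold cr cA
      simp only [Prod.fst_sub, Prod.snd_sub]
      push_cast
      linear_combination ((q.1 : ℝ) - p.1) * b1 - ((r.1 : ℝ) - p.1) * a1 + b * v 1 * a0 -
        a * v 1 * b0
    exact_mod_cast (mul_eq_zero.mp h).resolve_right hs
  · intro h
    unfold cr cA at h
    simp only [Prod.fst_sub, Prod.snd_sub] at h
    refine ⟨place D q - place D p, ?_⟩
    have key : ∃ t : ℚ, r.1 = t * (q.1 - p.1) + p.1 ∧ r.2 = t * (q.2 - p.2) + p.2 := by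
      by_cases h1 : q.1 - p.1 = 0
      · have h2 : q.2 - p.2 ≠ 0 := by
          intro h2
          exact hpq (Prod.ext (by linarith) (by linarith))
        refine ⟨(r.2 - p.2) / (q.2 - p.2), ?_, ?_⟩
        · rw [h1] at h ⊢
          have h3 : (r.1 - p.1) * (q.2 - p.2) = 0 := by linarith
          have h4 := (mul_eq_zero.mp h3).resolve_right h2
          linarith
        · field_simp
          ring
      · refine ⟨(r.1 - p.1) / (q.1 - p.1), ?_, ?_⟩
        · field_simp
          ring
        · field_simp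
          linarith
    obtain ⟨t, ht1, ht2⟩ := key
    intro x hx
    simp only [Set.mem_insert_iff, Set.mem_singleton_iff] at hx
    rcases hx with rfl | rfl | rfl
    · exact ⟨0, by simp⟩
    · exact ⟨1, by simp⟩
    · refine ⟨(t : ℝ), ?_⟩
      ext i
      fin_cases i
      · simp only [vadd_eq_add, PiLp.add_apply, PiLp.smul_apply, PiLp.sub_apply, smul_eq_mul,
          Fin.zero_eta, place_0]
        rw [ht1]
        push_cast
        ring
      · simp only [vadd_eq_add, PiLp.add_apply, PiLp.smul_apply, PiLp.sub_apply, smul_eq_mul,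
          Fin.mk_one, place_1]
        rw [ht2]
        push_cast
        ring

/-- Main theorem. -/
theorem main {V : Type} (G : SimpleGraph V) (e : V → ℕ) (he : Function.Injective e) (W : Set V)
    (hW : W.Finite) (D : ℚ) (hD : 0 < D) (f₀ : W → Plane) (h₀ : IsRationalRep (G.induce W) f₀)
    (hc : ∀ w, ∃ x y : ℚ, f₀ w 0 = (x : ℝ) ∧ f₀ w 1 = (y : ℝ) * √(D : ℝ))
    (hdeg : ∀ v, v ∉ W → {u | G.Adj u v ∧ (u ∈ W ∨ e u < e v)}.encard ≤ 3) :
    ∃ f : V → Plane, IsRationalRep G f ∧ ∀ w : W, f w = f₀ w := by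
  classical
  choose x y hx hy using hc
  have hf0 : ∀ w : W, f₀ w = place D (x w, y w) := by
    intro w
    ext i
    fin_cases i
    · simp only [Fin.zero_eta, place_0]; exact hx w
    · simp only [Fin.mk_one, place_1]; exact hy w
  let g0 : V → Pt := fun u => if h : u ∈ W then (x ⟨u, h⟩, y ⟨u, h⟩) else 0
  have hg0 : ∀ u (h : u ∈ W), place D (g0 u) = f₀ ⟨u, h⟩ := by
    intro u h
    rw [hf0]
    simp only [g0, h, dif_pos]
  have hPl : ∀ u, u ∈ Pl e W 0 → u ∈ W := by
    rintro u (h | h)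
    · exact h
    · exact absurd h (Nat.not_lt_zero _)
  have hinj0 : ∀ u ∈ W, ∀ v ∈ W, g0 u = g0 v → u = v := by
    intro u hu v hv h
    have h1 := congrArg (place D) h
    rw [hg0 u hu, hg0 v hv] at h1
    have := h₀.injective h1
    exact congrArg Subtype.val this
  have good0 : Good G e W D g0 0 g0 := by
    refine ⟨fun _ _ => rfl, ?_, ?_, ?_⟩
    · intro u hu v hv h
      exact hinj0 u (hPl u hu) v (hPl v hv) h
    · intro u hu v hv w hw huv hvw huw
      have hu' := hPl u hu
      have hv' := hPl v hv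
      have hw' := hPl w hw
      have h1 := h₀.no_three_collinear ⟨u, hu'⟩ ⟨v, hv'⟩ ⟨w, hw'⟩
        (fun h => huv (congrArg Subtype.val h)) (fun h => hvw (congrArg Subtype.val h))
        (fun h => huw (congrArg Subtype.val h))
      rw [← hg0 u hu', ← hg0 v hv', ← hg0 w hw',
        collinear_place_iff hD (fun h => huv (hinj0 u hu' v hv' h))] at h1
      exact h1
    · intro u hu v hv huv
      have hu' := hPl u hu
      have hv' := hPl v hv
      have h1 := h₀.adj_iff ⟨u, hu'⟩ ⟨v, hv'⟩ (fun h => huv (congrArg Subtype.val h))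
      rw [← hg0 u hu', ← hg0 v hv', rat_dist_iff hD, nm_sub_comm] at h1
      exact h1
  obtain ⟨f, hf1, hf2, hf3, hf4⟩ := build G e W g0 hD he hW hdeg good0
  refine ⟨fun u => place D (f u), ⟨?_, ?_, ?_⟩, ?_⟩
  · exact (place_injective hD).comp hf2
  · intro u v w huv hvw huw
    rw [collinear_place_iff hD (fun h => huv (hf2 h))]
    exact hf3 u v w huv hvw huw
  · intro u v huv
    rw [rat_dist_iff hD, nm_sub_comm]
    exact hf4 u v huv
  · intro w
    simp only
    rw [hf1 w w.2, hg0 w w.2]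

end Pool.Agent.Lib.MP_a24e3f_co
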